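import Mathlib
import Pool.Agent.Helper126.Lam.Forc

/-!
# Weak Kurepa trees and Cohen forcing: definitions
-/

set_option autoImplicit false

namespace Pool.Agent.W876.WK

open Cardinal Pool.Agent.Helper126.Lam.Forc

/-- Cohen forcing: the finite functions from subsets of `ω` to `2`, a condition being stronger if
it extends the other one. -/
def Cohen : Type := {f : ℕ → Option Bool // {n | f n ≠ none}.Finite}

instance : Preorder Cohen where
  le q p := ∀ n b, p.1 n = some b → q.1 n = some b
  le_refl _ _ _ h := h
  le_trans _ _ _ h1 h2 n v h := h1 n v (h2 n v h)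

/-- The set of the ordinals below `ω₂` (of the ground model). -/
abbrev K2 : Type := (ℵ_ 2).ord.ToType

/-- The node `t` has height `α`: the set of its predecessors is order isomorphic to `α` (in
particular it is well-ordered). -/
def HasHeight {T : Type} [PartialOrder T] (t : T) (α : Ordinal.{0}) : Prop :=
  Nonempty ({s : T // s < t} ≃o Set.Iio α)

/-- There is a weak Kurepa tree at `ω₁`: a tree of height `ω₁` and cardinality `ℵ₁` with at least
`ℵ₂` cofinal branches (chains meeting every level). -/
def WeakKurepa : Prop :=
  ∃ (T : Type) (_ : PartialOrder T), #T = ℵ_ 1 ∧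
    (∀ t : T, ∃ α < Ordinal.omega 1, HasHeight t α) ∧
    (∀ α < Ordinal.omega 1, ∃ t : T, HasHeight t α) ∧
    ℵ_ 2 ≤ #{b : Set T // IsChain (· ≤ ·) b ∧ ∀ α < Ordinal.omega 1, ∃ t ∈ b, HasHeight t α}

section

variable {P : Type} [Preorder P]

/-- `B` names a cofinal branch of the tree named by `lt` and `ht`: a chain which contains nodes of
every height below `ω₁`. -/
def IsCofinalBranch (lt ht : K1 → K1 → Set P) (B : K1 → Set P) : Set P :=
  fand
    (fall fun x => fall fun y => fall fun _ : x ≠ y =>
      fimp (fand (meets (B x)) (meets (B y)))
        (fnot (fand (fnot (meets (lt x y))) (fnot (meets (lt y x))))))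
    (fall fun ξ => fex fun x => fand (meets (B x)) (meets (ht x ξ)))

end

/-- In the extension there is a weak Kurepa tree at `ω₁`: there are a tree of height `ω₁` with
set of nodes `ω₁` (with order `lt` and height function `ht`) and a family of pairwise different
cofinal branches of this tree indexed by `ω₂`. -/
def ForcedWeakKurepa (P : Type) [Preorder P] : Set P :=
  fex fun lt : K1 → K1 → Set P => fex fun ht : K1 → K1 → Set P =>
    fand (IsTree lt ht) (fex fun Br : K2 → K1 → Set P =>
      fand (fall fun ζ => IsCofinalBranch lt ht (Br ζ))
        (fall fun ζ => fall fun ζ' => fall fun _ : ζ ≠ ζ' =>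
          fnot (fall fun x => fand (fimp (meets (Br ζ x)) (meets (Br ζ' x)))
            (fimp (meets (Br ζ' x)) (meets (Br ζ x))))))

/-- Every uncountable cardinal of the ground model is a cardinal of the extension: no function
from a set of smaller ground model cardinality `μ` to `ν` is onto. -/
def CardinalsPreserved (P : Type) [Preorder P] : Set P :=
  fall fun μ : Cardinal.{0} => fall fun ν : Cardinal.{0} => fall fun _ : μ < ν =>
    fall fun _ : ℵ₀ < ν =>
      fnot (fex fun R : μ.out → ν.out → Set P =>
        fand (IsFun R) (fall fun y => fex fun x => meets (R x y)))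

end Pool.Agent.W876.WK
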