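import Mathlib
import Pool.Agent.W876.WK.Defs

/-!
# Countable forcing does not add weak Kurepa trees
-/

set_option autoImplicit false

namespace Pool.Agent.W876.WK

open Cardinal Pool.Agent.Helper126.Lam.Forc

universe u

section forcing

variable {P : Type} [Preorder P]

theorem meets_dense {N : Set P} {p : P} (h : ∀ q ≤ p, ∃ r ≤ q, r ∈ meets N) : p ∈ meets N := by
  intro q hq
  obtain ⟨r, hr, hr'⟩ := h q hq
  obtain ⟨r', hr1, s, hs, hs'⟩ := hr' r le_rfl
  exact ⟨r', hr1.trans hr, s, hs, hs'⟩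

theorem mono {N : Set P} {p q : P} (h : p ∈ meets N) (hq : q ≤ p) : q ∈ meets N :=
  down_meets N p h q hq

theorem of_fimp {φ : Set P} {N : Set P} {p : P} (h : p ∈ fimp φ (meets N)) (hd : Down φ)
    (hp : p ∈ φ) : p ∈ meets N :=
  meets_dense fun q hq => by
    obtain ⟨r, hr, hr'⟩ := mem_fimp.1 h q hq (hd p hp q hq)
    exact ⟨r, hr, hr'⟩

theorem of_fimp_ground {φ : Set P} {a : Prop} {p : P} (h : p ∈ fimp φ (fground a))
    (hp : p ∈ φ) : a := by
  obtain ⟨r, _, hr'⟩ := mem_fimp.1 h p le_rfl hp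
  exact hr'

variable {lt ht : K1 → K1 → Set P} {p : P}

theorem down_isTree : Down (IsTree lt ht) := by
  unfold IsTree
  refine down_fand (down_fand (down_IsFun _) ?_) (down_fand (down_fand ?_ ?_) (down_fand ?_ ?_))
  · exact down_fall fun _ => down_fall fun _ => down_fall fun _ => down_fimp _ _
  · exact down_fall fun _ => down_fall fun _ => down_fall fun _ => down_fall fun _ => down_fimp _ _
  · exact down_fall fun _ => down_fall fun _ => down_fall fun _ => down_fall fun _ => down_fimp _ _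
  · exact down_fall fun _ => down_fall fun _ => down_fall fun _ => down_fimp _ _
  · exact down_fall fun _ => down_fex _

theorem tree_fun (h : p ∈ IsTree lt ht) : p ∈ IsFun ht := h.1.1

theorem tree_ht (h : p ∈ IsTree lt ht) (x : K1) : ∃ q ≤ p, ∃ ξ, q ∈ meets (ht x ξ) :=
  IsFun.total (tree_fun h) x

theorem tree_ht_unique (h : p ∈ IsTree lt ht) {x ξ ξ' : K1} (h1 : p ∈ meets (ht x ξ))
    (h2 : p ∈ meets (ht x ξ')) : ξ = ξ' := IsFun.unique (tree_fun h) h1 h2

theorem tree_trans (h : p ∈ IsTree lt ht) {x y z : K1} (h1 : p ∈ meets (lt x y))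
    (h2 : p ∈ meets (lt y z)) : p ∈ meets (lt x z) :=
  of_fimp (h.1.2 x y z) (down_fand (down_meets _) (down_meets _)) ⟨h1, h2⟩

theorem tree_mono (h : p ∈ IsTree lt ht) {x y ξ η : K1} (h1 : p ∈ meets (lt x y))
    (h2 : p ∈ meets (ht x ξ)) (h3 : p ∈ meets (ht y η)) : ξ < η :=
  of_fimp_ground (h.2.1.1 x y ξ η) ⟨h1, h2, h3⟩

theorem tree_same (h : p ∈ IsTree lt ht) {x y z ξ : K1} (h1 : p ∈ meets (lt x z))
    (h2 : p ∈ meets (lt y z)) (h3 : p ∈ meets (ht x ξ)) (h4 : p ∈ meets (ht y ξ)) : x = y :=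
  of_fimp_ground (h.2.1.2 x y z ξ) ⟨⟨h1, h2⟩, h3, h4⟩

theorem tree_pred (h : p ∈ IsTree lt ht) {y ξ η : K1} (h1 : p ∈ meets (ht y η)) (h2 : ξ < η) :
    ∃ q ≤ p, ∃ x, q ∈ meets (lt x y) ∧ q ∈ meets (ht x ξ) := by
  have h3 := mem_fimp.1 (h.2.2.1 y ξ η) p le_rfl ⟨h1, h2⟩
  obtain ⟨r, hr, hr'⟩ := h3
  obtain ⟨s, hs, x, hx⟩ := mem_fex.1 hr' r le_rfl
  exact ⟨s, hs.trans hr, x, hx.1, hx.2⟩

/-- two nodes below a third one are comparable -/
theorem tree_comp (h : p ∈ IsTree lt ht) {x y z ξ η : K1} (h1 : p ∈ meets (lt x z))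
    (h2 : p ∈ meets (lt y z)) (h3 : p ∈ meets (ht x ξ)) (h4 : p ∈ meets (ht y η)) (h5 : ξ < η) :
    p ∈ meets (lt x y) := by
  refine meets_dense fun q hq => ?_
  have hT := down_isTree p h q hq
  obtain ⟨r, hr, u, hu1, hu2⟩ := tree_pred hT (mono h4 hq) h5
  have hTr := down_isTree q hT r hr
  have h6 := tree_trans hTr hu1 (mono h2 (hr.trans hq))
  have h7 := tree_same hTr h6 (mono h1 (hr.trans hq)) hu2 (mono h3 (hr.trans hq))
  exact ⟨r, hr, h7 ▸ hu1⟩

theorem down_branch {B : K1 → Set P} : Down (IsCofinalBranch lt ht B) :=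
  down_fand (down_fall fun _ => down_fall fun _ => down_fall fun _ => down_fimp _ _)
    (down_fall fun _ => down_fex _)

/-- in a branch, a node of smaller height is below a node of larger height -/
theorem branch_lt (hT : p ∈ IsTree lt ht) {B : K1 → Set P} (hB : p ∈ IsCofinalBranch lt ht B)
    {x y ξ η : K1} (h1 : p ∈ meets (B x)) (h2 : p ∈ meets (B y)) (h3 : p ∈ meets (ht x ξ))
    (h4 : p ∈ meets (ht y η)) (h5 : ξ < η) : p ∈ meets (lt x y) := by
  refine meets_dense fun q hq => ?_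
  have hne : x ≠ y := by
    rintro rfl
    exact absurd (tree_ht_unique hT h3 h4) h5.ne
  obtain ⟨r, hr, hr'⟩ := mem_fimp.1 (hB.1 x y hne) q hq ⟨mono h1 hq, mono h2 hq⟩
  have h6 := hr' r le_rfl
  have h7 : ¬ (r ∈ fnot (meets (lt x y)) ∧ r ∈ fnot (meets (lt y x))) := h6
  have hTr := down_isTree p hT r (hr.trans hq)
  by_cases h8 : r ∈ fnot (meets (lt x y))
  · have h9 : r ∉ fnot (meets (lt y x)) := fun h => h7 ⟨h8, h⟩
    have h10 : ∃ s ≤ r, s ∈ meets (lt y x) := by
      by_contra hcon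
      push Not at hcon
      exact h9 hcon
    obtain ⟨s, hs, hs'⟩ := h10
    have hTs := down_isTree r hTr s hs
    have hsp := hs.trans (hr.trans hq)
    exact absurd (tree_mono hTs hs' (mono h4 hsp) (mono h3 hsp)) h5.not_gt
  · have h10 : ∃ s ≤ r, s ∈ meets (lt x y) := by
      by_contra hcon
      push Not at hcon
      exact h8 hcon
    obtain ⟨s, hs, hs'⟩ := h10
    exact ⟨s, hs.trans hr, hs'⟩

theorem branch_height {B : K1 → Set P} (hB : p ∈ IsCofinalBranch lt ht B) (ξ : K1) :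
    ∃ q ≤ p, ∃ x, q ∈ meets (B x) ∧ q ∈ meets (ht x ξ) := by
  obtain ⟨r, hr, x, hx⟩ := mem_fex.1 (hB.2 ξ) p le_rfl
  exact ⟨r, hr, x, hx.1, hx.2⟩

/-! ### The tree decided by one condition -/

/-- the nodes whose height is decided by `p` -/
def Tp (ht : K1 → K1 → Set P) (p : P) : Type := {x : K1 // ∃ ξ, p ∈ meets (ht x ξ)}

theorem tp_ht (x : Tp ht p) : ∃ ξ, p ∈ meets (ht x.1 ξ) := x.2

noncomputable def hh (x : Tp ht p) : K1 := x.2.choose

theorem hh_spec (x : Tp ht p) : p ∈ meets (ht x.1 (hh x)) := x.2.choose_spec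

/-- the order decided by `p` -/
@[reducible] def tpOrder (lt : K1 → K1 → Set P) (hT : p ∈ IsTree lt ht) :
    PartialOrder (Tp ht p) where
  le x y := x = y ∨ p ∈ meets (lt x.1 y.1)
  lt x y := p ∈ meets (lt x.1 y.1)
  le_refl x := Or.inl rfl
  le_trans x y z := by
    rintro (rfl | h1) (rfl | h2)
    · exact Or.inl rfl
    · exact Or.inr h2
    · exact Or.inr h1
    · exact Or.inr (tree_trans hT h1 h2)
  lt_iff_le_not_ge x y := by
    constructor
    · intro h
      refine ⟨Or.inr h, ?_⟩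
      rintro (rfl | h')
      · exact absurd (tree_mono hT h (hh_spec _) (hh_spec _)) (lt_irrefl _)
      · exact absurd (tree_mono hT h (hh_spec x) (hh_spec y))
          (tree_mono hT h' (hh_spec y) (hh_spec x)).not_gt
    · rintro ⟨rfl | h, h'⟩
      · exact absurd (Or.inl rfl) h'
      · exact h
  le_antisymm x y := by
    rintro (rfl | h1) (h | h2)
    · rfl
    · rfl
    · exact h.symm
    · exact absurd (tree_mono hT h1 (hh_spec x) (hh_spec y))
          (tree_mono hT h2 (hh_spec y) (hh_spec x)).not_gt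

end forcing

/-! ### Trees of the ground model -/

section trees

variable {T : Type} [PartialOrder T]

/-- heights exist if the predecessor sets are well-ordered -/
theorem exists_height (t : T) (hwo : IsWellOrder {s : T // s < t} (· < ·)) :
    ∃ α : Ordinal.{0}, HasHeight t α := by
  classical
  let r : {s : T // s < t} → {s : T // s < t} → Prop := (· < ·)
  refine ⟨Ordinal.type r, ?_⟩
  let e := Ordinal.enum r
  -- `e : Iio (type r) ≃r {s // s < t}`
  have hlt : ∀ a b : Set.Iio (Ordinal.type r), e a < e b ↔ a < b := fun a b => e.map_rel_iff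
  have hcomp : ∀ a b : {s : T // s < t}, a < b ∨ a = b ∨ b < a := fun a b => trichotomous_of r a b
  refine ⟨OrderIso.symm ⟨e.toEquiv, ?_⟩⟩
  intro a b
  show e a ≤ e b ↔ a ≤ b
  rcases lt_trichotomy a b with h | h | h
  · simp [h.le, ((hlt a b).2 h).le]
  · simp [h]
  · have h' := (hlt b a).2 h
    constructor
    · intro h2
      exact absurd (h'.trans_le h2) (lt_irrefl _)
    · intro h2
      exact absurd h h2.not_gt

/-- a node of height at least `α` lies above a node of height `α` -/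
theorem exists_le_height {t : T} {α β : Ordinal.{0}} (h : HasHeight t β) (hα : α ≤ β) :
    ∃ s ≤ t, HasHeight s α := by
  rcases hα.eq_or_lt with rfl | hα
  · exact ⟨t, le_rfl, h⟩
  obtain ⟨e⟩ := h
  let s := e.symm ⟨α, hα⟩
  refine ⟨s.1, s.2.le, ⟨?_⟩⟩
  -- predecessors of `s` correspond to the ordinals below `α`
  have hs : e s = ⟨α, hα⟩ := e.apply_symm_apply _
  let f : {u : T // u < s.1} → Set.Iio α := fun u =>
    ⟨(e ⟨u.1, u.2.trans s.2⟩).1, by
      have h1 : (⟨u.1, u.2.trans s.2⟩ : {s : T // s < t}) < s := u.2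
      have h2 := e.lt_iff_lt.2 h1
      rw [hs] at h2
      exact h2⟩
  have hf : ∀ u v, f u ≤ f v ↔ u ≤ v := by
    intro u v
    show (e ⟨u.1, u.2.trans s.2⟩).1 ≤ (e ⟨v.1, v.2.trans s.2⟩).1 ↔ u ≤ v
    rw [Subtype.coe_le_coe, e.le_iff_le]
    rfl
  have hsurj : Function.Surjective f := by
    intro γ
    have hγ : γ.1 < β := lt_trans γ.2 hα
    have h1 : e.symm ⟨γ.1, hγ⟩ < s := by
      apply e.symm.lt_iff_lt.2
      exact γ.2
    refine ⟨⟨(e.symm ⟨γ.1, hγ⟩).1, h1⟩, ?_⟩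
    apply Subtype.ext
    show (e ⟨(e.symm ⟨γ.1, hγ⟩).1, _⟩).1 = γ.1
    have : (⟨(e.symm ⟨γ.1, hγ⟩).1, (e.symm ⟨γ.1, hγ⟩).2⟩ : {s : T // s < t}) =
      e.symm ⟨γ.1, hγ⟩ := rfl
    rw [this, e.apply_symm_apply]
  have hinj : Function.Injective f := by
    intro u v huv
    exact le_antisymm ((hf u v).1 huv.le) ((hf v u).1 huv.ge)
  exact ⟨Equiv.ofBijective f ⟨hinj, hsurj⟩, fun {u v} => hf u v⟩

end trees


/-! ### Order types -/

theorem le_of_strictMono {α γ : Ordinal.{0}} (f : Set.Iio α → Set.Iio γ) (hf : StrictMono f) :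
    α ≤ γ := by
  by_contra hcon
  push Not at hcon
  have h1 : ∀ x : Set.Iio α, x.1 ≤ (f x).1 := by
    rintro ⟨x, hx⟩
    induction x using WellFoundedLT.induction with
    | ind x IH =>
      by_contra h
      push Not at h
      have hx' : (f ⟨x, hx⟩).1 < α := lt_trans h hx
      have h2 := IH _ h hx'
      have h3 : f ⟨(f ⟨x, hx⟩).1, hx'⟩ < f ⟨x, hx⟩ := hf h
      exact absurd (lt_of_le_of_lt h2 h3) (lt_irrefl _)
  have h2 := h1 ⟨γ, hcon⟩
  exact absurd (f ⟨γ, hcon⟩).2 (not_lt.2 h2)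

theorem lt_omega_one {α : Ordinal.{0}} (η : K1) (f : Set.Iio α → {ξ : K1 // ξ < η})
    (hf : Function.Injective f) : α < Ordinal.omega 1 := by
  have h1 : Cardinal.lift.{0} #(Set.Iio α) ≤ Cardinal.lift.{1} #{ξ : K1 // ξ < η} :=
    Cardinal.lift_mk_le'.2 ⟨⟨f, hf⟩⟩
  have h2 : #{ξ : K1 // ξ < η} < ℵ_ 1 := Cardinal.mk_Iio_toType_ord_lt η
  rw [mk_Iio_ordinal] at h1
  have h3 : α.card < ℵ_ 1 := by
    have : Cardinal.lift.{1} α.card ≤ Cardinal.lift.{1} #{ξ : K1 // ξ < η} := by simpa using h1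
    exact (Cardinal.lift_le.1 this).trans_lt h2
  have h4 := (lt_ord (c := ℵ_ 1) (o := α)).2 h3
  rwa [ord_aleph] at h4

theorem lt_omega_one_iff_card {α : Ordinal.{0}} : α < Ordinal.omega 1 ↔ α.card < ℵ_ 1 := by
  rw [← ord_aleph]
  exact lt_ord

/-- an uncountable set of countable ordinals has points with many predecessors -/
theorem exists_large {E : Set K1} (hE : ℵ_ 1 ≤ #E) {α : Ordinal.{0}} (hα : α < Ordinal.omega 1) :
    ∃ (β : E) (f : Set.Iio α → {γ : E // γ < β}), StrictMono f := by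
  let r : E → E → Prop := (· < ·)
  have h1 : α < Ordinal.type r := by
    by_contra hcon
    push Not at hcon
    have h2 := Ordinal.card_le_card hcon
    rw [Ordinal.card_type] at h2
    exact absurd (hE.trans h2) (not_le.2 (lt_omega_one_iff_card.1 hα))
  let e := Ordinal.enum r
  have hlt : ∀ a b : Set.Iio (Ordinal.type r), e a < e b ↔ a < b := fun a b => e.map_rel_iff
  refine ⟨e ⟨α, h1⟩, fun γ => ⟨e ⟨γ.1, lt_trans γ.2 h1⟩, (hlt _ _).2 γ.2⟩, ?_⟩
  intro a b hab
  exact (hlt _ _).2 hab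

/-! ### The main theorem -/

theorem weakKurepa_of_forced {P : Type} [Preorder P] [Countable P] {p₀ : P}
    (h0 : p₀ ∈ ForcedWeakKurepa P) : WeakKurepa := by
  classical
  obtain ⟨q₁, hq₁, lt, h1⟩ := mem_fex.1 h0 p₀ le_rfl
  obtain ⟨q₂, hq₂, ht, hT₂, h2⟩ := mem_fex.1 h1 q₁ le_rfl
  obtain ⟨q, hq, Br, hBr, hne⟩ := mem_fex.1 h2 q₂ le_rfl
  have hTq : q ∈ IsTree lt ht := down_isTree q₂ hT₂ q hq
  -- decide one node of the branch at every height
  have h3 : ∀ (ζ : K2) (α : K1), ∃ s : P, s ≤ q ∧ ∃ x : K1, s ∈ meets (Br ζ x) ∧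
      s ∈ meets (ht x α) := fun ζ α => by
    obtain ⟨s, hs, x, hx⟩ := branch_height (hBr ζ) α
    exact ⟨s, hs, x, hx⟩
  choose c hcq x hx1 hx2 using h3
  have hcof1 : #P < (ℵ_ 1 : Cardinal.{0}).ord.cof := by
    rw [isRegular_aleph_one.cof_ord]
    exact (Cardinal.mk_le_aleph0).trans_lt aleph0_lt_aleph_one
  have hcof2 : #P < (ℵ_ 2 : Cardinal.{0}).ord.cof := by
    have h21 : (2 : Ordinal.{0}) = 1 + 1 := by norm_num
    have hreg : (ℵ_ 2 : Cardinal.{0}).IsRegular := by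
      rw [h21]
      exact isRegular_aleph_add_one 1
    rw [hreg.cof_ord]
    exact (Cardinal.mk_le_aleph0).trans_lt (aleph0_lt_aleph_one.trans (aleph_lt_aleph.2 (by norm_num)))
  have h4 : ∀ ζ : K2, ∃ s : P, ℵ_ 1 ≤ #((c ζ) ⁻¹' {s}) := fun ζ =>
    infinite_pigeonhole_card (c ζ) (ℵ_ 1) (by simp [K1]) aleph0_lt_aleph_one.le hcof1
  choose s hs using h4
  obtain ⟨p, hp⟩ := infinite_pigeonhole_card s (ℵ_ 2) (by simp [K2])
    (aleph0_le_aleph 2) hcof2
  -- `p` decides the nodes `x ζ α` for uncountably many `α`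
  let Z : Set K2 := s ⁻¹' {p}
  let E : K2 → Set K1 := fun ζ => (c ζ) ⁻¹' {p}
  have hE : ∀ ζ ∈ Z, ℵ_ 1 ≤ #(E ζ) := fun ζ hζ => by
    have h : s ζ = p := hζ
    have := hs ζ
    rw [h] at this
    exact this
  have hEx1 : ∀ ζ, ∀ α ∈ E ζ, p ∈ meets (Br ζ (x ζ α)) := fun ζ α hα => by
    have h : c ζ α = p := hα
    rw [← h]; exact hx1 ζ α
  have hEx2 : ∀ ζ, ∀ α ∈ E ζ, p ∈ meets (ht (x ζ α) α) := fun ζ α hα => by
    have h : c ζ α = p := hα
    rw [← h]; exact hx2 ζ α
  have hZne : Nonempty Z := by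
    rw [← Cardinal.mk_ne_zero_iff]
    intro h
    rw [h] at hp
    exact absurd ((aleph0_le_aleph 2).trans hp) (not_le.2 aleph0_pos)
  have hEne : ∀ ζ ∈ Z, Nonempty (E ζ) := fun ζ hζ => by
    rw [← Cardinal.mk_ne_zero_iff]
    intro h
    have := hE ζ hζ
    rw [h] at this
    exact absurd ((aleph0_le_aleph 1).trans this) (not_le.2 aleph0_pos)
  have hpq : p ≤ q := by
    obtain ⟨ζ, hζ⟩ := hZne
    obtain ⟨α, hα⟩ := hEne ζ hζ
    have h : c ζ α = p := hα
    rw [← h]; exact hcq ζ α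
  have hT : p ∈ IsTree lt ht := down_isTree q hTq p hpq
  have hB : ∀ ζ, p ∈ IsCofinalBranch lt ht (Br ζ) := fun ζ => down_branch q (hBr ζ) p hpq
  let _ : PartialOrder (Tp ht p) := tpOrder lt hT
  have hlt_def : ∀ a b : Tp ht p, a < b ↔ p ∈ meets (lt a.1 b.1) := fun a b => Iff.rfl
  have hle_def : ∀ a b : Tp ht p, a ≤ b ↔ (a = b ∨ p ∈ meets (lt a.1 b.1)) := fun a b => Iff.rfl
  have hhlt : ∀ a b : Tp ht p, a < b → hh a < hh b := fun a b hab =>
    tree_mono hT hab (hh_spec a) (hh_spec b)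
  have hcomp : ∀ a b t : Tp ht p, a ≤ t → b ≤ t → hh a < hh b → a < b := by
    intro a b t ha hb hab
    rcases hb with rfl | hb
    · rcases ha with rfl | ha
      · exact absurd hab (lt_irrefl _)
      · exact ha
    · rcases ha with rfl | ha
      · exact absurd (tree_mono hT hb (hh_spec b) (hh_spec _)) hab.not_gt
      · exact tree_comp hT ha hb (hh_spec a) (hh_spec b) hab
  have hcompeq : ∀ a b t : Tp ht p, a ≤ t → b ≤ t → hh a = hh b → a = b := by
    intro a b t ha hb hab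
    rcases ha with rfl | ha
    · rcases hb with rfl | hb
      · rfl
      · exact absurd hab (tree_mono hT hb (hh_spec b) (hh_spec _)).ne'
    · rcases hb with rfl | hb
      · exact absurd hab (tree_mono hT ha (hh_spec a) (hh_spec _)).ne
      · exact Subtype.ext (tree_same hT ha hb (hh_spec a) (hab ▸ hh_spec b))
  have hwo : ∀ t : Tp ht p, IsWellOrder {s : Tp ht p // s < t} (· < ·) := by
    intro t
    have htri : ∀ a b : {s : Tp ht p // s < t}, a < b ∨ a = b ∨ b < a := by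
      rintro ⟨a, ha⟩ ⟨b, hb⟩
      rcases lt_trichotomy (hh a) (hh b) with h | h | h
      · exact Or.inl (hcomp a b t ha.le hb.le h)
      · exact Or.inr (Or.inl (Subtype.ext (hcompeq a b t ha.le hb.le h)))
      · exact Or.inr (Or.inr (hcomp b a t hb.le ha.le h))
    have hwf : WellFounded (fun a b : {s : Tp ht p // s < t} => a < b) := by
      refine Subrelation.wf (r := InvImage (fun a b : K1 => a < b)
        (fun a : {s : Tp ht p // s < t} => hh a.1)) ?_ (InvImage.wf _ wellFounded_lt)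
      intro a b hab
      exact hhlt a.1 b.1 hab
    exact { trichotomous := fun a b h1 h2 => by
              rcases htri a b with h | h | h
              · exact absurd h h1
              · exact h
              · exact absurd h h2
            wf := hwf }
  have hheight : ∀ t : Tp ht p, ∃ α < Ordinal.omega 1, HasHeight t α := by
    intro t
    obtain ⟨α, hα⟩ := exists_height t (hwo t)
    refine ⟨α, ?_, hα⟩
    obtain ⟨e⟩ := hα
    refine lt_omega_one (hh t) (fun γ => ⟨hh (e.symm γ).1, hhlt _ _ (e.symm γ).2⟩) ?_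
    intro a b hab
    have h5 : hh (e.symm a).1 = hh (e.symm b).1 := congrArg Subtype.val hab
    have h6 := hcompeq (e.symm a).1 (e.symm b).1 t (e.symm a).2.le (e.symm b).2.le h5
    exact e.symm.injective (Subtype.ext h6)
  -- the nodes on the chains
  let nd : ∀ ζ : K2, E ζ → Tp ht p := fun ζ α => ⟨x ζ α.1, α.1, hEx2 ζ α.1 α.2⟩
  have hhnd : ∀ ζ (α : E ζ), hh (nd ζ α) = α.1 := fun ζ α =>
    tree_ht_unique hT (hh_spec (nd ζ α)) (hEx2 ζ α.1 α.2)
  have hndlt : ∀ ζ (α β : E ζ), α < β → nd ζ α < nd ζ β := fun ζ α β hαβ =>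
    branch_lt hT (hB ζ) (hEx1 ζ α.1 α.2) (hEx1 ζ β.1 β.2) (hEx2 ζ α.1 α.2) (hEx2 ζ β.1 β.2) hαβ
  have hlarge : ∀ ζ ∈ Z, ∀ α < Ordinal.omega.{0} 1, ∃ β : E ζ, ∃ s ≤ nd ζ β, HasHeight s α := by
    intro ζ hζ α hα
    obtain ⟨β, f, hf⟩ := exists_large (hE ζ hζ) hα
    obtain ⟨γ, hγ, e⟩ := hheight (nd ζ β)
    refine ⟨β, exists_le_height e ?_⟩
    obtain ⟨e⟩ := e
    refine le_of_strictMono (fun a => e ⟨nd ζ (f a).1, hndlt ζ _ _ (f a).2⟩) ?_
    intro a b hab
    apply e.lt_iff_lt.2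
    exact hndlt ζ _ _ (hf hab)
  refine ⟨Tp ht p, inferInstance, ?_, hheight, ?_, ?_⟩
  · -- cardinality
    apply le_antisymm
    · calc #(Tp ht p) ≤ #K1 := mk_subtype_le _
        _ = ℵ_ 1 := by simp [K1]
    · obtain ⟨ζ, hζ⟩ := hZne
      refine (hE ζ hζ).trans (mk_le_of_injective (f := nd ζ) ?_)
      intro a b hab
      have := hhnd ζ a
      rw [hab, hhnd ζ b] at this
      exact Subtype.ext this.symm
  · intro α hα
    obtain ⟨ζ, hζ⟩ := hZne
    obtain ⟨β, s, _, h⟩ := hlarge ζ hζ α hα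
    exact ⟨s, h⟩
  · -- the branches
    let b : Z → {b : Set (Tp ht p) // IsChain (· ≤ ·) b ∧
        ∀ α < Ordinal.omega 1, ∃ t ∈ b, HasHeight t α} := fun ζ =>
      ⟨{t | ∃ β : E ζ.1, t ≤ nd ζ.1 β}, by
        constructor
        · rintro t ⟨β, hβ⟩ u ⟨γ, hγ⟩ hne
          obtain ⟨δ, h1, h2⟩ : ∃ δ : E ζ.1, t ≤ nd ζ.1 δ ∧ u ≤ nd ζ.1 δ := by
            rcases lt_trichotomy β γ with h | h | h
            · exact ⟨γ, hβ.trans (hndlt _ _ _ h).le, hγ⟩
            · exact ⟨γ, h ▸ hβ, hγ⟩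
            · exact ⟨β, hβ, hγ.trans (hndlt _ _ _ h).le⟩
          rcases lt_trichotomy (hh t) (hh u) with h | h | h
          · exact Or.inl (hcomp _ _ _ h1 h2 h).le
          · exact absurd (hcompeq _ _ _ h1 h2 h) hne
          · exact Or.inr (hcomp _ _ _ h2 h1 h).le
        · intro α hα
          obtain ⟨β, s, hs, h⟩ := hlarge ζ.1 ζ.2 α hα
          exact ⟨s, ⟨β, hs⟩, h⟩⟩
    refine hp.trans (mk_le_of_injective (f := b) ?_)
    -- different indices give different branches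
    have key : ∀ ζ η : Z, b ζ = b η → ∀ y : K1, ∀ q' ≤ p, q' ∈ meets (Br ζ.1 y) →
        ∃ r ≤ q', r ∈ meets (Br η.1 y) := by
      intro ζ η hζη y q' hq' hy
      have hTq' := down_isTree p hT q' hq'
      obtain ⟨q'', hq'', ξ, hξ⟩ := tree_ht hTq' y
      -- a member of the chain of `η` above height `ξ`
      have hunb : ∃ α : E η.1, ξ < α.1 := by
        by_contra hcon
        push Not at hcon
        have h5 : #(E η.1) ≤ #(Set.Iic ξ) :=
          mk_le_of_injective (f := fun α : E η.1 => (⟨α.1, hcon α⟩ : Set.Iic ξ))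
            (fun a b hab => Subtype.ext (congrArg (fun z : Set.Iic ξ => z.1) hab))
        have h6 : #(Set.Iic ξ) < ℵ_ 1 := by
          have h7 : Set.Iic ξ = insert ξ (Set.Iio ξ) := (Set.Iio_insert).symm
          rw [h7]
          refine (mk_insert_le).trans_lt ?_
          exact add_lt_of_lt aleph0_lt_aleph_one.le (Cardinal.mk_Iio_toType_ord_lt ξ)
            (one_lt_aleph0.trans aleph0_lt_aleph_one)
        exact absurd ((hE η.1 η.2).trans h5) (not_le.2 h6)
      obtain ⟨α, hα⟩ := hunb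
      have h5 : nd η.1 α ∈ (b ζ).1 := by
        rw [hζη]
        exact ⟨α, le_rfl⟩
      obtain ⟨β, hβ⟩ := h5
      have hpq'' : q'' ≤ p := hq''.trans hq'
      have hTq'' := down_isTree p hT q'' hpq''
      have hαβ : α.1 ≤ β.1 := by
        rcases hβ with h | h
        · rw [← hhnd η.1 α, h, hhnd]
        · have := hhlt _ _ h
          rw [hhnd, hhnd] at this
          exact this.le
      -- `y` is below `x ζ β`
      have h6 : q'' ∈ meets (lt y (x ζ.1 β.1)) :=
        branch_lt hTq'' (down_branch p (hB ζ.1) q'' hpq'') (mono hy hq'')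
          (mono (hEx1 ζ.1 β.1 β.2) hpq'') hξ (mono (hEx2 ζ.1 β.1 β.2) hpq'')
          (hα.trans_le hαβ)
      -- so it is below `x η α`
      have h7 : q'' ∈ meets (lt y (x η.1 α.1)) := by
        rcases hβ with h | h
        · have h8 : x η.1 α.1 = x ζ.1 β.1 := congrArg Subtype.val h
          rw [h8]; exact h6
        · exact tree_comp hTq'' h6 (mono h hpq'') hξ (mono (hEx2 η.1 α.1 α.2) hpq'') hα
      -- the branch of `η` has a member of height `ξ`
      obtain ⟨r, hr, u, hu1, hu2⟩ := branch_height (down_branch p (hB η.1) q'' hpq'') ξ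
      have hrp : r ≤ p := hr.trans hpq''
      have hTr := down_isTree p hT r hrp
      have h8 : r ∈ meets (lt u (x η.1 α.1)) :=
        branch_lt hTr (down_branch p (hB η.1) r hrp) hu1 (mono (hEx1 η.1 α.1 α.2) hrp) hu2
          (mono (hEx2 η.1 α.1 α.2) hrp) hα
      have h9 : u = y := tree_same hTr h8 (mono h7 hr) hu2 (mono hξ hr)
      exact ⟨r, hr.trans hq'', h9 ▸ hu1⟩
    intro ζ η hζη
    by_contra hcon
    have hne' : ζ.1 ≠ η.1 := fun h => hcon (Subtype.ext h)
    refine hne ζ.1 η.1 hne' p hpq ?_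
    intro y
    exact ⟨mem_fimp.2 (key ζ η hζη y), mem_fimp.2 (key η ζ hζη.symm y)⟩

end Pool.Agent.W876.WK
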