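import Mathlib
import Pool.Agent.W876.WK.Down

/-!
# A weak Kurepa tree of the ground model remains one, and cardinals are preserved
-/

set_option autoImplicit false

namespace Pool.Agent.W876.WK

open Cardinal Pool.Agent.Helper126.Lam.Forc

section trees

variable {T : Type} [PartialOrder T]

theorem height_of_pred {t : T} {β : Ordinal.{0}} (e : {s : T // s < t} ≃o Set.Iio β)
    (s : {s : T // s < t}) : HasHeight s.1 (e s).1 := by
  let f : {u : T // u < s.1} → Set.Iio (e s).1 := fun u =>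
    ⟨(e ⟨u.1, u.2.trans s.2⟩).1, by
      have h1 : (⟨u.1, u.2.trans s.2⟩ : {s : T // s < t}) < s := u.2
      exact e.lt_iff_lt.2 h1⟩
  have hf : ∀ u v, f u ≤ f v ↔ u ≤ v := by
    intro u v
    show (e ⟨u.1, u.2.trans s.2⟩).1 ≤ (e ⟨v.1, v.2.trans s.2⟩).1 ↔ u ≤ v
    rw [Subtype.coe_le_coe, e.le_iff_le]
    rfl
  have hsurj : Function.Surjective f := by
    intro γ
    have hγ : γ.1 < β := lt_trans γ.2 (e s).2
    have h1 : e.symm ⟨γ.1, hγ⟩ < s := by
      have h2 : e.symm ⟨γ.1, hγ⟩ < e.symm (e s) := by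
        apply e.symm.lt_iff_lt.2
        exact γ.2
      exact h2.trans_eq (e.symm_apply_apply s)
    refine ⟨⟨(e.symm ⟨γ.1, hγ⟩).1, h1⟩, ?_⟩
    apply Subtype.ext
    show (e ⟨(e.symm ⟨γ.1, hγ⟩).1, _⟩).1 = γ.1
    have : (⟨(e.symm ⟨γ.1, hγ⟩).1, (e.symm ⟨γ.1, hγ⟩).2⟩ : {s : T // s < t}) =
      e.symm ⟨γ.1, hγ⟩ := rfl
    rw [this, e.apply_symm_apply]
  have hinj : Function.Injective f := by
    intro u v huv
    exact le_antisymm ((hf u v).1 huv.le) ((hf v u).1 huv.ge)
  exact ⟨Equiv.ofBijective f ⟨hinj, hsurj⟩, fun {u v} => hf u v⟩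

theorem height_unique {t : T} {α β : Ordinal.{0}} (h1 : HasHeight t α) (h2 : HasHeight t β) :
    α = β := by
  obtain ⟨e1⟩ := h1
  obtain ⟨e2⟩ := h2
  exact le_antisymm (le_of_strictMono (fun a => e2 (e1.symm a))
    (fun a b h => e2.strictMono (e1.symm.strictMono h)))
    (le_of_strictMono (fun a => e1 (e2.symm a))
    (fun a b h => e1.strictMono (e2.symm.strictMono h)))

theorem height_lt {s t : T} {α β : Ordinal.{0}} (h : s < t) (h1 : HasHeight s α)
    (h2 : HasHeight t β) : α < β := by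
  obtain ⟨e⟩ := h2
  have h3 := height_unique h1 (height_of_pred e ⟨s, h⟩)
  rw [h3]
  exact (e ⟨s, h⟩).2

theorem height_inj {s s' t : T} {α β : Ordinal.{0}} (h : s < t) (h' : s' < t)
    (h1 : HasHeight s α) (h2 : HasHeight s' α) (h3 : HasHeight t β) : s = s' := by
  obtain ⟨e⟩ := h3
  have h4 := height_unique h1 (height_of_pred e ⟨s, h⟩)
  have h5 := height_unique h2 (height_of_pred e ⟨s', h'⟩)
  have h6 : e ⟨s, h⟩ = e ⟨s', h'⟩ := Subtype.ext (h4.symm.trans h5)
  exact congrArg Subtype.val (e.injective h6)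

end trees

theorem meets_gm {P : Type} [Preorder P] {h : Prop} {p : P} : p ∈ meets {_q : P | h} ↔ h := by
  constructor
  · intro hp
    obtain ⟨_, _, _, hs, _⟩ := hp p le_rfl
    exact hs
  · intro h q hq
    exact ⟨q, le_rfl, q, h, le_rfl⟩

/-- the ordinal coded by an element of `K1` -/
noncomputable def od (ξ : K1) : Ordinal.{0} := (Ordinal.ToType.mk.symm ξ).1

theorem od_lt (ξ : K1) : od ξ < Ordinal.omega 1 := by
  have := (Ordinal.ToType.mk.symm ξ).2
  have h : (Ordinal.ToType.mk.symm ξ).1 < (ℵ_ 1 : Cardinal.{0}).ord := this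
  exact h.trans_eq (ord_aleph 1)

theorem od_lt_iff {ξ η : K1} : od ξ < od η ↔ ξ < η :=
  (Ordinal.ToType.mk.symm : K1 ≃o Set.Iio (ℵ_ 1 : Cardinal.{0}).ord).lt_iff_lt

theorem od_inj {ξ η : K1} (h : od ξ = od η) : ξ = η :=
  (Ordinal.ToType.mk.symm : K1 ≃o Set.Iio (ℵ_ 1 : Cardinal.{0}).ord).injective (Subtype.ext h)

theorem od_surj {α : Ordinal.{0}} (h : α < Ordinal.omega 1) : ∃ ξ : K1, od ξ = α := by
  rw [← ord_aleph] at h
  refine ⟨Ordinal.ToType.mk ⟨α, h⟩, ?_⟩
  unfold od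
  rw [OrderIso.symm_apply_apply]

theorem forced_of_weakKurepa {P : Type} [Preorder P] (h : WeakKurepa) (p : P) :
    p ∈ ForcedWeakKurepa P := by
  obtain ⟨T, iT, hcard, hht, hlev, hbr⟩ := h
  have hK1 : #K1 = #T := by rw [hcard]; simp [K1]
  obtain ⟨e⟩ := Cardinal.eq.1 hK1
  have hK2 : #K2 ≤ #{b : Set T // IsChain (· ≤ ·) b ∧
      ∀ α < Ordinal.omega 1, ∃ t ∈ b, HasHeight t α} := by
    refine le_trans ?_ hbr
    simp [K2]
  obtain ⟨b⟩ := hK2
  have hT : ∀ q : P, q ∈ IsTree (fun x y => {_q : P | e x < e y})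
      (fun x ξ => {_q : P | HasHeight (e x) (od ξ)}) := by
    intro q
    refine ⟨⟨⟨?_, ?_⟩, ?_⟩, ⟨⟨?_, ?_⟩, ?_, ?_⟩⟩
    · intro x
      obtain ⟨α, hα, h⟩ := hht (e x)
      obtain ⟨ξ, rfl⟩ := od_surj hα
      exact mem_fex_of_mem ξ (down_meets _) (meets_gm.2 h)
    · intro x y y'
      refine mem_fimp.2 fun r _ hr => ⟨r, le_rfl, ?_⟩
      exact od_inj (height_unique (meets_gm.1 hr.1) (meets_gm.1 hr.2))
    · intro x y z
      refine mem_fimp.2 fun r _ hr => ⟨r, le_rfl, meets_gm.2 ?_⟩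
      exact (meets_gm.1 hr.1 : e x < e y).trans (meets_gm.1 hr.2)
    · intro x y ξ η
      refine mem_fimp.2 fun r _ hr => ⟨r, le_rfl, ?_⟩
      exact od_lt_iff.1 (height_lt (meets_gm.1 hr.1) (meets_gm.1 hr.2.1) (meets_gm.1 hr.2.2))
    · intro x y z ξ
      refine mem_fimp.2 fun r _ hr => ⟨r, le_rfl, ?_⟩
      obtain ⟨β, _, hβ⟩ := hht (e z)
      exact e.injective (height_inj (meets_gm.1 hr.1.1) (meets_gm.1 hr.1.2) (meets_gm.1 hr.2.1)
        (meets_gm.1 hr.2.2) hβ)
    · intro y ξ η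
      refine mem_fimp.2 fun r _ hr => ⟨r, le_rfl, ?_⟩
      have h1 : HasHeight (e y) (od η) := meets_gm.1 hr.1
      have h2 : ξ < η := hr.2
      obtain ⟨s, hs, hs'⟩ := exists_le_height h1 (od_lt_iff.2 h2).le
      have hne : s ≠ e y := by
        rintro rfl
        exact absurd (height_unique h1 hs') (od_lt_iff.2 h2).ne'
      have hlt : s < e y := lt_of_le_of_ne hs hne
      refine mem_fex_of_mem (e.symm s) (down_fand (down_meets _) (down_meets _)) ⟨?_, ?_⟩
      · apply meets_gm.2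
        simpa using hlt
      · apply meets_gm.2
        simpa using hs'
    · intro ξ
      obtain ⟨t, ht⟩ := hlev (od ξ) (od_lt ξ)
      refine mem_fex_of_mem (e.symm t) (down_meets _) (meets_gm.2 ?_)
      simpa using ht
  have down_ex : Down (fex fun Br : K2 → K1 → Set P =>
      fand (fall fun ζ => IsCofinalBranch (fun x y => {_q : P | e x < e y})
        (fun x ξ => {_q : P | HasHeight (e x) (od ξ)}) (Br ζ))
        (fall fun ζ => fall fun ζ' => fall fun _ : ζ ≠ ζ' =>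
          fnot (fall fun x => fand (fimp (meets (Br ζ x)) (meets (Br ζ' x)))
            (fimp (meets (Br ζ' x)) (meets (Br ζ x)))))) := down_fex _
  refine mem_fex.2 fun q _ => ⟨q, le_rfl, fun x y => {_q : P | e x < e y}, ?_⟩
  refine mem_fex.2 fun r _ => ⟨r, le_rfl, fun x ξ => {_q : P | HasHeight (e x) (od ξ)}, hT r, ?_⟩
  refine mem_fex.2 fun s _ => ⟨s, le_rfl, fun ζ x => {_q : P | e x ∈ (b ζ).1}, ?_, ?_⟩
  · intro ζ
    constructor
    · intro x y hxy
      refine mem_fimp.2 fun u _ hu => ⟨u, le_rfl, ?_⟩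
      rintro v _ ⟨hv1, hv2⟩
      have h1 : e x ∈ (b ζ).1 := meets_gm.1 hu.1
      have h2 : e y ∈ (b ζ).1 := meets_gm.1 hu.2
      have hne : e x ≠ e y := fun h => hxy (e.injective h)
      rcases (b ζ).2.1 h1 h2 hne with h | h
      · exact hv1 v le_rfl (meets_gm.2 (lt_of_le_of_ne h hne))
      · exact hv2 v le_rfl (meets_gm.2 (lt_of_le_of_ne h hne.symm))
    · intro ξ
      obtain ⟨t, ht, ht'⟩ := (b ζ).2.2 (od ξ) (od_lt ξ)
      refine mem_fex_of_mem (e.symm t) (down_fand (down_meets _) (down_meets _)) ⟨?_, ?_⟩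
      · apply meets_gm.2; simpa using ht
      · apply meets_gm.2; simpa using ht'
  · intro ζ ζ' hne v _ hv
    have hb : (b ζ).1 = (b ζ').1 := by
      ext t
      obtain ⟨h1, h2⟩ := hv (e.symm t)
      constructor
      · intro ht
        obtain ⟨w, _, hw⟩ := mem_fimp.1 h1 v le_rfl (meets_gm.2 (by simpa using ht))
        simpa using (meets_gm.1 hw : e (e.symm t) ∈ (b ζ').1)
      · intro ht
        obtain ⟨w, _, hw⟩ := mem_fimp.1 h2 v le_rfl (meets_gm.2 (by simpa using ht))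
        simpa using (meets_gm.1 hw : e (e.symm t) ∈ (b ζ).1)
    exact hne (b.injective (Subtype.ext hb))

theorem cardinals_preserved {P : Type} [Preorder P] [Countable P] (p : P) :
    p ∈ CardinalsPreserved P := by
  intro μ ν hμν hν q _ hq
  obtain ⟨r, _, R, hR, hsurj⟩ := mem_fex.1 hq q le_rfl
  have h1 : ∀ y : ν.out, ∃ s : P, s ≤ r ∧ ∃ x : μ.out, s ∈ meets (R x y) := fun y => by
    obtain ⟨s, hs, x, hx⟩ := mem_fex.1 (hsurj y) r le_rfl
    exact ⟨s, hs, x, hx⟩
  choose s hs x hx using h1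
  have hinj : Function.Injective (fun y => (s y, x y)) := by
    intro y y' h
    have h2 : s y = s y' := congrArg Prod.fst h
    have h3 : x y = x y' := congrArg Prod.snd h
    have h4 := hx y'
    rw [← h2, ← h3] at h4
    exact IsFun.unique (down_IsFun R r hR (s y) (hs y)) (hx y) h4
  have h2 : #ν.out ≤ #(P × μ.out) := mk_le_of_injective hinj
  rw [mk_out, mk_prod, lift_id, lift_id, mk_out] at h2
  have h3 : #P * μ < ν := mul_lt_of_lt hν.le ((Cardinal.mk_le_aleph0).trans_lt hν) hμν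
  exact absurd h2 (not_le.2 h3)

instance : Countable Cohen := by
  have h : Function.Injective (fun f : Cohen =>
      ((f.2.toFinset.image fun n => (n, f.1 n)) : Finset (ℕ × Option Bool))) := by
    intro f g hfg
    apply Subtype.ext
    funext n
    have key : ∀ f g : Cohen, (f.2.toFinset.image fun n => (n, f.1 n)) =
        (g.2.toFinset.image fun n => (n, g.1 n)) → f.1 n ≠ none → f.1 n = g.1 n := by
      intro f g hfg hn
      have h1 : (n, f.1 n) ∈ (f.2.toFinset.image fun n => (n, f.1 n)) :=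
        Finset.mem_image.2 ⟨n, by simpa using hn, rfl⟩
      rw [hfg] at h1
      obtain ⟨m, _, hm⟩ := Finset.mem_image.1 h1
      have h2 : m = n := congrArg Prod.fst hm
      have h3 : g.1 m = f.1 n := congrArg Prod.snd hm
      rw [← h3, h2]
    by_cases h1 : f.1 n = none
    · by_cases h2 : g.1 n = none
      · rw [h1, h2]
      · exact (key g f hfg.symm h2).symm
    · exact key f g hfg h1
  exact h.countable

theorem main : (∀ p : Cohen, p ∈ CardinalsPreserved Cohen) ∧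
    ∀ p : Cohen, p ∈ ForcedWeakKurepa Cohen ↔ WeakKurepa :=
  ⟨cardinals_preserved, fun p => ⟨weakKurepa_of_forced, fun h => forced_of_weakKurepa h p⟩⟩

end Pool.Agent.W876.WK
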